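import Pool.Agent.H98.Fib.Final

/-! MP_24b761_mp: the Hausdorff dimension of the density of states measure of the Fibonacci
Hamiltonian is a non-increasing function of the coupling constant on `(0, ∞)`. -/

open MeasureTheory Set Pool.Agent.H98.Fib

namespace Pool.Agent.Results.MP_24b761_mp.DimensionAntitone

/-- For every coupling `l > 0` the density of states measure `ν l` exists and is unique, and
`l ↦ dim_H (ν l)` is non-increasing on `(0, ∞)`. -/
theorem result : ∃ ν : ℝ → Measure ℝ,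
    (∀ l : ℝ, 0 < l → IsDOS l (ν l) ∧ ∀ μ : Measure ℝ, IsDOS l μ → μ = ν l) ∧
    AntitoneOn (fun l => dimMeasure (ν l)) (Ioi 0) := by
  classical
  choose! ν hν using fun (l : ℝ) (hl : 0 < l) => exists_dos hl.le
  refine ⟨ν, fun l hl => ⟨hν l hl, fun μ hμ => hμ.unique (hν l hl)⟩, ?_⟩
  intro l₁ h₁ l₂ h₂ h
  exact dim_dos_le l₁ l₂ h₁ h (ν l₁) (ν l₂) (hν l₁ h₁) (hν l₂ h₂)

end Pool.Agent.Results.MP_24b761_mp.DimensionAntitone
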